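import Pool.Agent.W2helper30.QM9

/-!
The group of rational numbers embeds in an asymptotically rigid mapping class group.
-/

namespace Pool.Agent.Results.MP_dd8834_al.RationalSubgroup

open Pool.Agent.V11131.Mod

/-- There is a locally finite planar tree A (given with a surface cut into polygons in the
pattern of A and one puncture in each polygon) such that the asymptotically rigid mapping class
group mod(A) has a subgroup isomorphic to the additive group of the rational numbers. -/
theorem result : ∃ X : TreeSurface, ∃ f : Multiplicative ℚ →* X.MCG, Function.Injective f :=
  ⟨Pool.Agent.W2helper30.QM.XX, Pool.Agent.W2helper30.QM.main⟩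

end Pool.Agent.Results.MP_dd8834_al.RationalSubgroup
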